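import Mathlib
import Pool.Agent.V11320.BngLower

set_option autoImplicit false
open MeasureTheory ProbabilityTheory
open scoped ENNReal NNReal BigOperators Topology

namespace Pool.Agent.Results.MP_8219fb_pr.OrderOfGrowth

open Pool.Agent.V11320.Bng

/-- The critical number of choices of the bidirectional `k`-neighbor graph on `Z^d` has order
`sqrt d`. The first three items say that `kc d` is a true minimum. -/
theorem result : ∀ d : ℕ, 1 ≤ d →
    1 ≤ kc d ∧ kc d ≤ 2 * d ∧ 0 < theta d (kc d) ∧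
    (∀ k : ℕ, 1 ≤ k → k < kc d → theta d k = 0) ∧
    Real.sqrt d ≤ (kc d : ℝ) ∧ (kc d : ℝ) ≤ 30 * Real.sqrt d := by
  intro d hd
  obtain ⟨h1, h2, h3⟩ := Nat.sInf_mem (kc_set_nonempty hd)
  refine ⟨h1, h2, h3, ?_, kc_lower hd, kc_upper hd⟩
  intro k hk1 hk
  by_contra hcon
  have h4 : kc d ≤ k := Nat.sInf_le ⟨hk1, hk.le.trans h2, pos_iff_ne_zero.mpr hcon⟩
  omega

end Pool.Agent.Results.MP_8219fb_pr.OrderOfGrowth
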